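import Pool.Agent.TH930.PS.Tail
import Pool.Agent.H499R2.NDCor3

set_option autoImplicit false

/-! The cycles of the `3x+k` maps whose basins have no small element: power saving beyond the entropy
exponent. -/

namespace Pool.Agent.Results.MP_7f88e4_nt.BasinsBelowEntropy

open Filter Topology Pool.Agent.H499R2.ND

/-- the `3x+k` map on the integers -/
def T (k x : ℤ) : ℤ := if x % 2 = 0 then x / 2 else (3 * x + k) / 2

/-- `c` lies on a cycle of `T_{3,k}` -/
def Periodic (k c : ℤ) : Prop := ∃ p : ℕ, 1 ≤ p ∧ (T k)^[p] c = c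

/-- the integers whose orbit passes through `c` -/
def Basin (k c : ℤ) : Set ℤ := {n | ∃ j : ℕ, (T k)^[j] n = c}

/-- `c` is the least element of a cycle; this labels the cycles -/
def Label (k c : ℤ) : Prop := Periodic k c ∧ ∀ j : ℕ, c ≤ (T k)^[j] c

/-- among the integers of sign `s` (`s = 1` or `s = -1`) those in `A` have the natural density `δ` -/
def HasDensity (s : ℤ) (A : Set ℤ) (δ : ℝ) : Prop :=
  Tendsto (fun N : ℕ => ({n : ℤ | 0 < s * n ∧ s * n ≤ N ∧ n ∈ A}.ncard : ℝ) / N) atTop (𝓝 δ)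

theorem basin_mg {k c : ℤ} (h : Periodic k c) : Basin k c = Mg (Td k) c := basin_eq (f := Td k) h

theorem label_unique {k c c' : ℤ} (h : Label k c) (h' : Label k c') {n : ℤ}
    (hn : n ∈ Basin k c) (hn' : n ∈ Basin k c') : c = c' := by
  rw [basin_mg h.1] at hn
  rw [basin_mg h'.1] at hn'
  have h1 : c ∈ Basin k c' := by
    rw [basin_mg h'.1]; exact Mg_trans (Mg_symm hn) hn'
  have h2 : c' ∈ Basin k c := by
    rw [basin_mg h.1]; exact Mg_trans (Mg_symm hn') hn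
  obtain ⟨j, hj⟩ := h1
  obtain ⟨i, hi⟩ := h2
  have h3 := h.2 j
  have h4 := h'.2 i
  rw [hj] at h3
  rw [hi] at h4
  omega

/-- number of the integers `n` with `|n| ≤ X` and the property `P` -/
noncomputable def count (P : ℤ → Prop) (X : ℝ) : ℝ := ({n : ℤ | |(n : ℝ)| ≤ X ∧ P n}.ncard : ℝ)

/-- Let `k` be congruent to `1` or `5` mod `6`. There are `e > 1 - H(log_3 2)`, `H` the binary entropy in
bits, `C` and natural densities `δ s c` of the basins of the periodic points `c` among the integers of sign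
`s` such that for all `y ≥ 1`: for every `X ≥ 1` at most `C X / y^e` integers `n` with `|n| ≤ X` lie in the
basin of a cycle whose basin contains no integer of absolute value `≤ y`, and for both signs `s` the sum
of the densities of these basins is at most `C / y^e`. -/
theorem result : ∀ k : ℤ, (k % 6 = 1 ∨ k % 6 = 5) →
    ∃ e C : ℝ, 1 - Real.binEntropy (Real.log 2 / Real.log 3) / Real.log 2 < e ∧ 0 < C ∧
      ∃ δ : ℤ → ℤ → ℝ,
        (∀ s : ℤ, (s = 1 ∨ s = -1) → ∀ c : ℤ, Periodic k c → HasDensity s (Basin k c) (δ s c)) ∧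
        ∀ y : ℝ, 1 ≤ y →
          (∀ X : ℝ, 1 ≤ X → count (fun n => ∃ c, Periodic k c ∧ n ∈ Basin k c ∧
            ∀ m ∈ Basin k c, y < |(m : ℝ)|) X ≤ C * X / y ^ e) ∧
          (∀ s : ℤ, (s = 1 ∨ s = -1) →
            Summable (fun c : {c : ℤ // Label k c ∧ ∀ n ∈ Basin k c, y < |(n : ℝ)|} => δ s c) ∧
            ∑' c : {c : ℤ // Label k c ∧ ∀ n ∈ Basin k c, y < |(n : ℝ)|}, δ s c ≤ C / y ^ e) := by
  intro k hk
  have hk2 : k % 2 = 1 := by omega
  have hk3 : ¬ (3 : ℤ) ∣ k := by omega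
  have hodd : Odd k := Int.odd_iff.2 hk2
  have hc3 := cop_of_not_dvd hk3
  obtain ⟨e, he, K, hK, h⟩ := Pool.Agent.TH930.PS.three' hodd
  have h1 := Pool.Agent.TH930.PS.tail' hK h (s := 1) (Or.inl rfl)
  have h2 := Pool.Agent.TH930.PS.tail' hK h (s := -1) (Or.inr rfl)
  have hex : ∀ s : ℤ, ∀ a : ℤ, ∃ l : ℝ, (s = 1 ∨ s = -1) → (0 ≤ l ∧ HD s (Mg (Td k) a) l) := by
    intro s a
    by_cases hs : s = 1 ∨ s = -1
    · obtain ⟨l, h0, _, hl⟩ := dens_side hodd hc3 hs (Mg_inv k a)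
      exact ⟨l, fun _ => ⟨h0, hl⟩⟩
    · exact ⟨0, fun h => absurd h hs⟩
  choose δ hδ using hex
  refine ⟨e, K, he, hK, δ, ?_, fun y hy => ?_⟩
  · intro s hs c hc
    rw [basin_mg hc]
    exact HD_ncard hs (hδ s c hs).2
  have hyc : 0 < y ^ e := Real.rpow_pos_of_pos (by linarith) _
  have key : ∀ P : ℤ → Prop, (∀ n : ℤ, P n → ∀ j : ℕ, y < |(((T k)^[j] n : ℤ) : ℝ)|) → ∀ X : ℝ, 1 ≤ X →
      count P X ≤ K * X / y ^ e := by
    intro P hP X hX
    have hfin : {x : ℤ | |(x : ℝ)| ≤ X ∧ ∀ n : ℕ, y < |(((Td k)^[n] x : ℤ) : ℝ)|}.Finite := by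
      apply (Set.finite_Icc (-⌈X⌉) ⌈X⌉).subset
      rintro x ⟨hx, -⟩
      have h1 := abs_le.1 hx
      have h2 := Int.le_ceil X
      rw [Set.mem_Icc]
      constructor
      · have : (-(⌈X⌉ : ℤ) : ℝ) ≤ x := by linarith
        exact_mod_cast this
      · have : (x : ℝ) ≤ (⌈X⌉ : ℤ) := by linarith
        exact_mod_cast this
    refine le_trans ?_ (h X y hX hy)
    unfold count
    have hsub : {n : ℤ | |(n : ℝ)| ≤ X ∧ P n} ⊆
        {x : ℤ | |(x : ℝ)| ≤ X ∧ ∀ n : ℕ, y < |(((Td k)^[n] x : ℤ) : ℝ)|} := by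
      rintro n ⟨h4, h5⟩
      exact ⟨h4, hP n h5⟩
    exact_mod_cast Set.ncard_le_ncard hsub hfin
  refine ⟨key _ ?_, ?_⟩
  · rintro n ⟨c, hc, hn, hm⟩ j
    apply hm
    rw [basin_mg hc] at hn ⊢
    exact (Mg_iter _ _ _ j).1 hn
  · intro s hs
    have hinv : Inv k {n : ℤ | ∃ c, Label k c ∧ n ∈ Basin k c ∧ ∀ m ∈ Basin k c, y < |(m : ℝ)|} := by
      intro x
      constructor
      · rintro ⟨c, hc, hx, hm⟩
        refine ⟨c, hc, ?_, hm⟩
        rw [basin_mg hc.1] at hx ⊢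
        exact (Mg_step _ _ _).1 hx
      · rintro ⟨c, hc, hx, hm⟩
        refine ⟨c, hc, ?_, hm⟩
        rw [basin_mg hc.1] at hx ⊢
        exact (Mg_step _ _ _).2 hx
    obtain ⟨l', _, _, hl'⟩ := dens_side hodd hc3 hs hinv
    have hsum := part_sum (ι := {c : ℤ // Label k c ∧ ∀ n ∈ Basin k c, y < |(n : ℝ)|}) hodd hk3 hs
      (fun c => Mg (Td k) c.1) (fun c => δ s c.1)
      (fun c => (hδ s c.1 hs).2) (fun c c' hcc => by
        rw [Set.disjoint_left]
        intro n hn hn'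
        apply hcc
        apply Subtype.ext
        apply label_unique c.2.1 c'.2.1 (n := n)
        · rw [basin_mg c.2.1.1]; exact hn
        · rw [basin_mg c'.2.1.1]; exact hn')
      (fun c => Mg_inv k c.1) hinv
      (fun n hnS => by
        obtain ⟨c, hc, hnc, hm⟩ := hnS
        rw [basin_mg hc.1] at hnc
        exact ⟨⟨c, hc, hm⟩, hnc⟩)
      (fun c n hnc => by
        have : n ∈ Basin k c.1 := by rw [basin_mg c.2.1.1]; exact hnc
        exact ⟨c.1, c.2.1, this, c.2.2⟩) hl'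
    refine ⟨hsum.summable, ?_⟩
    rw [hsum.tsum_eq]
    have hel : ∀ x ∈ {n : ℤ | ∃ c, Label k c ∧ n ∈ Basin k c ∧ ∀ m ∈ Basin k c, y < |(m : ℝ)|},
        y < |(x : ℝ)| := by
      rintro x ⟨c, hc, hx, hm⟩
      exact hm x hx
    rcases hs with rfl | rfl
    · exact h1 y hy _ hinv hel l' hl'
    · exact h2 y hy _ hinv hel l' hl'

end Pool.Agent.Results.MP_7f88e4_nt.BasinsBelowEntropy
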