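import Pool.Agent.TH930.SP.Rigid

set_option autoImplicit false

/-!
The lengths of the cycles of the `3x+k` maps on the integers: a counting exponent strictly below the
entropy exponent, uniformly in `k`.
-/

namespace Pool.Agent.Results.MP_7f88e4_nt.CycleLengthsBelowEntropy

/-- The `3x+k` map on the integers. -/
def T (k : ℤ) (x : ℤ) : ℤ := if x % 2 = 0 then x / 2 else (3 * x + k) / 2

/-- The lengths of the cycles of the `3x+k` map on the integers. -/
def cycleLengths (k : ℤ) : Set ℕ := {p | 0 < p ∧ ∃ x : ℤ, Function.minimalPeriod (T k) x = p}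

/-- There are `η` strictly smaller than the base-two binary entropy `0.94995...` of `log 2 / log 3` and
`A` such that for every odd `k` and every `P ≥ 1` at most `A |k| P ^ η` of the numbers `1, ..., P` are
lengths of cycles of the `3x+k` map on the integers. -/
theorem result : ∃ η A : ℝ, η < Real.binEntropy (Real.log 2 / Real.log 3) / Real.log 2 ∧
    ∀ k : ℤ, k % 2 = 1 → ∀ P : ℕ, 1 ≤ P →
      (Set.ncard {p : ℕ | p ∈ cycleLengths k ∧ p ≤ P} : ℝ) ≤ A * |(k : ℝ)| * (P : ℝ) ^ η := by
  obtain ⟨η, A, hη, -, h⟩ := Pool.Agent.TH930.SP.lengths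
  exact ⟨η, A, hη, fun k hk P hP => h k (Int.odd_iff.2 hk) P hP⟩

end Pool.Agent.Results.MP_7f88e4_nt.CycleLengthsBelowEntropy
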